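import Mathlib
import Pool.Agent.W533.LP.Defs

/-! Project LP: deterministic recursions -/

set_option autoImplicit false

namespace Pool.Agent.W589.LP

open Pool.Agent.W533.LP

theorem ps_succ (I : ℕ → ℕ) (k : ℕ) : ps I (k + 1) = ps I k + I k := by
  unfold ps
  rw [Finset.sum_range_succ]

theorem ps_zero (I : ℕ → ℕ) : ps I 0 = 0 := by simp [ps]

theorem ps_z (k : ℕ) : ps zero k = 0 := by simp [ps, zero]

theorem G_h (I J : ℕ → ℕ) (W : ℕ → ℕ → ℕ) (m : ℕ) : G I J W m 0 = ps I m := by
  induction m with
  | zero => simp [G, ps]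
  | succ m ih => rw [ps_succ, G, ih]

theorem G_v (I J : ℕ → ℕ) (W : ℕ → ℕ → ℕ) (n : ℕ) : G I J W 0 n = ps J n := by
  induction n with
  | zero => simp [G, ps]
  | succ n ih => rw [ps_succ, G, ih]

theorem G_s (I J : ℕ → ℕ) (W : ℕ → ℕ → ℕ) (m n : ℕ) :
    G I J W (m + 1) (n + 1) = max (G I J W m (n + 1)) (G I J W (m + 1) n) + W m n := by
  rw [G]

theorem dMono : DMono := by
  intro I I' J J' W W' hI hJ hW m
  induction m with
  | zero =>
    intro n
    rw [G_v, G_v]
    exact hJ n
  | succ m ihm =>
    intro n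
    induction n with
    | zero =>
      rw [G_h, G_h]
      exact hI _
    | succ n ihn =>
      rw [G_s, G_s]
      have h1 := ihm (n + 1)
      have h2 := hW m n
      omega

theorem dMax : DMax := by
  intro I J W m
  induction m with
  | zero =>
    intro n
    rw [G_v, G_v, G_v, ps_z]
    omega
  | succ m ihm =>
    intro n
    induction n with
    | zero =>
      rw [G_h, G_h, G_h, ps_z]
      omega
    | succ n ihn =>
      rw [G_s, G_s, G_s]
      have h1 := ihm (n + 1)
      omega

theorem dTransp : DTransp := by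
  intro I J W m
  induction m with
  | zero =>
    intro n
    rw [G_v, G_h]
  | succ m ihm =>
    intro n
    induction n with
    | zero =>
      rw [G_h, G_v]
    | succ n ihn =>
      rw [G_s, G_s]
      have h1 := ihm (n + 1)
      omega

/-- one step of attractiveness -/
theorem attr1 (I I' J J' : ℕ → ℕ) (W : ℕ → ℕ → ℕ) (hI : ∀ i, I i ≤ I' i) (hJ : ∀ j, J' j ≤ J j) (m : ℕ) :
    ∀ n, (G I J W (m + 1) n + G I' J' W m n ≤ G I' J' W (m + 1) n + G I J W m n) ∧
      (G I' J' W m (n + 1) + G I J W m n ≤ G I J W m (n + 1) + G I' J' W m n) := by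
  have hA0 : ∀ m, G I J W (m + 1) 0 + G I' J' W m 0 ≤ G I' J' W (m + 1) 0 + G I J W m 0 := by
    intro m
    rw [G_h, G_h, G_h, G_h, ps_succ, ps_succ]
    have := hI m
    omega
  have hB0 : ∀ n, G I' J' W 0 (n + 1) + G I J W 0 n ≤ G I J W 0 (n + 1) + G I' J' W 0 n := by
    intro n
    rw [G_v, G_v, G_v, G_v, ps_succ, ps_succ]
    have := hJ n
    omega
  have hstep : ∀ m n, (G I J W (m + 1) n + G I' J' W m n ≤ G I' J' W (m + 1) n + G I J W m n) →
      (G I' J' W m (n + 1) + G I J W m n ≤ G I J W m (n + 1) + G I' J' W m n) →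
      (G I J W (m + 1) (n + 1) + G I' J' W m (n + 1) ≤ G I' J' W (m + 1) (n + 1) + G I J W m (n + 1)) ∧
      (G I' J' W (m + 1) (n + 1) + G I J W (m + 1) n ≤ G I J W (m + 1) (n + 1) + G I' J' W (m + 1) n) := by
    intro m n h1 h2
    rw [G_s, G_s]
    omega
  induction m with
  | zero =>
    intro n
    refine ⟨?_, hB0 n⟩
    induction n with
    | zero => exact hA0 0
    | succ n ihn => exact (hstep 0 n ihn (hB0 n)).1
  | succ m ihm =>
    intro n
    have hB : ∀ n, G I' J' W (m + 1) (n + 1) + G I J W (m + 1) n ≤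
        G I J W (m + 1) (n + 1) + G I' J' W (m + 1) n := fun n => (hstep m n (ihm n).1 (ihm n).2).2
    refine ⟨?_, hB n⟩
    induction n with
    | zero => exact hA0 (m + 1)
    | succ n ihn => exact (hstep (m + 1) n ihn (hB n)).1

theorem dAttr : DAttr := by
  intro I I' J J' W hI hJ m n k
  constructor
  · induction k with
    | zero => simp only [add_zero]; omega
    | succ k ih =>
      have h := (attr1 I I' J J' W hI hJ (m + k) n).1
      rw [← add_assoc]
      omega
  · induction k with
    | zero => simp only [add_zero]; omega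
    | succ k ih =>
      have h := (attr1 I I' J J' W hI hJ m (n + k)).2
      rw [← add_assoc]
      omega

theorem dSand : DSand := by
  intro I J W m n
  constructor
  · intro h k
    have h1 := dMax I J W m n
    have h2 := dMax I J W (m + k) n
    have h3 := (dAttr zero I zero zero W (fun i => Nat.zero_le _) (fun j => le_rfl) m n k).1
    unfold T
    omega
  · intro h k hk
    have h1 := dMax I J W m n
    have h2 := dMax I J W (m - k) n
    have h3 := (dAttr zero zero J zero W (fun i => le_rfl) (fun j => Nat.zero_le _) (m - k) n k).1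
    rw [Nat.sub_add_cancel hk] at h3
    unfold T
    omega

end Pool.Agent.W589.LP
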