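import Mathlib
import Pool.Agent.W533.LP.Defs
import Pool.Agent.W589.LP.D1

/-! Project LP: slopes in one boundary weight -/

set_option autoImplicit false

namespace Pool.Agent.W589.LP

open Pool.Agent.W533.LP

theorem ps_bump (I : ℕ → ℕ) (u h k : ℕ) : ps (bump I u h) k = ps I k + (if u < k then h else 0) := by
  induction k with
  | zero => simp [ps]
  | succ k ih =>
    rw [ps_succ, ps_succ, ih]
    unfold bump
    by_cases h1 : k = u
    · rw [if_pos h1, if_neg (by omega), if_pos (by omega)]
      omega
    · rw [if_neg h1]
      by_cases h2 : u < k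
      · rw [if_pos h2, if_pos (by omega)]
        omega
      · rw [if_neg h2, if_neg (by omega)]
        omega

theorem bump_zero (I : ℕ → ℕ) (u : ℕ) : bump I u 0 = I := by
  funext i
  unfold bump
  split_ifs <;> simp

theorem bump_bump (I : ℕ → ℕ) (u h k : ℕ) : bump (bump I u h) u k = bump I u (h + k) := by
  funext i
  unfold bump
  split_ifs <;> omega

/-- slopes zero or one, nondecreasing -/
def QQ (f : ℕ → ℕ) : Prop := ∀ h, f h ≤ f (h + 1) ∧ f (h + 1) ≤ f h + 1 ∧ (f (h + 1) = f h + 1 → f (h + 1 + 1) = f (h + 1) + 1)

theorem qq_all (I J : ℕ → ℕ) (W : ℕ → ℕ → ℕ) (u m : ℕ) : ∀ n, QQ (fun h => G (bump I u h) J W m n) := by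
  have hax : ∀ m, QQ (fun h => G (bump I u h) J W m 0) := by
    intro m h
    simp only [G_h, ps_bump]
    split_ifs <;> omega
  induction m with
  | zero =>
    intro n h
    simp only [G_v]
    omega
  | succ m ihm =>
    intro n
    induction n with
    | zero => exact hax _
    | succ n ihn =>
      intro h
      have h1 := ihm (n + 1) h
      have h2 := ihn h
      have h3 := ihm (n + 1) (h + 1)
      have h4 := ihn (h + 1)
      simp only [G_s] at h1 h2 h3 h4 ⊢
      refine ⟨?_, ?_, ?_⟩ <;> omega

theorem dSlope : DSlope := by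
  intro I J W u m n
  have hq := qq_all I J W u m n
  have h0 : G (bump I u 0) J W m n = G I J W m n := by rw [bump_zero]
  constructor
  · intro h
    induction h with
    | zero => omega
    | succ h ih =>
      have := hq h
      simp only at this
      omega
  · intro h1
    have h2 : ∀ h, G (bump I u h) J W m n = G I J W m n + h ∧
        G (bump I u (h + 1)) J W m n = G I J W m n + (h + 1) := by
      intro h
      induction h with
      | zero => exact ⟨by omega, h1⟩
      | succ h ih =>
        have := hq h
        simp only at this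
        exact ⟨ih.2, by omega⟩
    exact fun h => (h2 h).1

theorem mono_core (I I' J J' : ℕ → ℕ) (W : ℕ → ℕ → ℕ) (u : ℕ) (hI : ∀ i, I i ≤ I' i) (hJ : ∀ j, J' j ≤ J j)
    (m : ℕ) : ∀ n, G (bump I u 1) J W m n + G I' J' W m n ≤ G (bump I' u 1) J' W m n + G I J W m n := by
  induction m with
  | zero =>
    intro n
    simp only [G_v]
    omega
  | succ m ihm =>
    intro n
    induction n with
    | zero =>
      simp only [G_h, ps_bump]
      omega
    | succ n ihn =>
      have hx := ihm (n + 1)
      have hb : ∀ i, I i ≤ bump I u 1 i := by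
        intro i; unfold bump; split_ifs <;> omega
      have hb' : ∀ i, I' i ≤ bump I' u 1 i := by
        intro i; unfold bump; split_ifs <;> omega
      have a1 := attr1 I (bump I u 1) J J W hb (fun _ => le_rfl) m n
      have a2 := attr1 I' (bump I' u 1) J' J' W hb' (fun _ => le_rfl) m n
      have a3 := attr1 I I' J J' W hI hJ m n
      have s1 := (dSlope I J W u m (n + 1)).1 1
      have s2 := (dSlope I J W u (m + 1) n).1 1
      have s3 := (dSlope I' J' W u m (n + 1)).1 1
      have s4 := (dSlope I' J' W u (m + 1) n).1 1
      simp only [G_s]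
      omega

theorem dSlopeMono : DSlopeMono := by
  intro I I' J J' W u m n hI hJ h
  have h1 := mono_core I I' J J' W u hI hJ m n
  have h2 := (dSlope I' J' W u m n).1 1
  omega

theorem ps_mono {I I' : ℕ → ℕ} (h : ∀ i, I i ≤ I' i) (k : ℕ) : ps I k ≤ ps I' k :=
  Finset.sum_le_sum fun i _ => h i

theorem ps_diff {I I' : ℕ → ℕ} (h : ∀ i, I i ≤ I' i) {u k : ℕ} (huk : u ≤ k) :
    ps I' u + ps I k ≤ ps I' k + ps I u := by
  induction k, huk using Nat.le_induction with
  | base => omega
  | succ k _ ih =>
    rw [ps_succ, ps_succ]
    have := h k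
    omega

theorem dIncl : DIncl := by
  intro I I' J J' W u m n hI hJ h
  have hall := (dSlope I J W u m n).2 h
  have hmx := dMax I J W m n
  have hD := ps_mono hI (u + 1)
  set D := ps I' (u + 1) - ps I (u + 1) with hDdef
  have hle : ∀ k, ps (bump I u D) k ≤ ps I' k := by
    intro k
    rw [ps_bump]
    split_ifs with hk
    · have := ps_diff hI (u := u + 1) (k := k) (by omega)
      omega
    · simpa using ps_mono hI k
  have h1 := dMax (bump I u 1) J W m n
  have h2 := (dSlope I zero W u m n).1 1
  have h3 := hall 1
  have h4 : G I zero W m n ≤ G I' J' W m n :=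
    dMono _ _ _ _ _ _ (ps_mono hI) (fun k => by rw [ps_z]; exact Nat.zero_le _) (fun _ _ => le_rfl) m n
  rcases Nat.eq_zero_or_pos D with h0 | hpos
  · omega
  · have h5 := dMax (bump I u D) J W m n
    have h6 := hall D
    have h7 : G (bump I u D) zero W m n ≤ G I' J' W m n :=
      dMono _ _ _ _ _ _ hle (fun k => by rw [ps_z]; exact Nat.zero_le _) (fun _ _ => le_rfl) m n
    omega

theorem G_congr (I I' J : ℕ → ℕ) (W : ℕ → ℕ → ℕ) (m : ℕ) : (∀ i < m, I i = I' i) → ∀ n,
    G I J W m n = G I' J W m n := by
  induction m with
  | zero =>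
    intro _ n
    rw [G_v, G_v]
  | succ m ihm =>
    intro h n
    have h1 := ihm (fun i hi => h i (by omega))
    induction n with
    | zero =>
      rw [G, G, h1 0, h m (by omega)]
    | succ n ihn =>
      rw [G_s, G_s, h1 (n + 1), ihn]

theorem cut_succ (I : ℕ → ℕ) (i : ℕ) : cut I (i + 1) = bump (cut I i) i (I i) := by
  funext j
  simp only [cut, bump]
  by_cases h1 : j = i
  · subst h1
    simp
  · rw [if_neg h1]
    by_cases h2 : j < i
    · rw [if_pos h2, if_pos (by omega)]
    · rw [if_neg h2, if_neg (by omega)]

theorem cut_core (I : ℕ → ℕ) (W : ℕ → ℕ → ℕ) (w m n : ℕ) (h : G (cut I w) zero W m n < G I zero W m n) :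
    G I zero W m n + 1 ≤ G (bump I w 1) zero W m n := by
  -- some cut matters
  have h1 : ∃ i, w ≤ i ∧ G (cut I i) zero W m n < G (cut I (i + 1)) zero W m n := by
    by_contra hc
    push Not at hc
    have h2 : ∀ s, G (cut I (w + s)) zero W m n ≤ G (cut I w) zero W m n := by
      intro s
      induction s with
      | zero => simp
      | succ s ih => exact (hc (w + s) (by omega)).trans ih
    have h3 : G (cut I (w + m)) zero W m n = G I zero W m n := by
      apply G_congr
      intro i hi
      unfold cut
      rw [if_pos (by omega)]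
    have := h2 m
    omega
  obtain ⟨i, hwi, hi⟩ := h1
  rw [cut_succ] at hi
  -- some unit matters
  have h2 : ∃ k < I i, G (bump (cut I i) i (k + 1)) zero W m n = G (bump (cut I i) i k) zero W m n + 1 := by
    by_contra hc
    push Not at hc
    have h3 : ∀ k ≤ I i, G (bump (cut I i) i k) zero W m n = G (cut I i) zero W m n := by
      intro k hk
      induction k with
      | zero => rw [bump_zero]
      | succ k ih =>
        have h4 := ih (by omega)
        have h5 := hc k (by omega)
        have h6 := qq_all (cut I i) zero W i m n k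
        simp only at h6
        omega
    have := h3 (I i) le_rfl
    omega
  obtain ⟨k, hk, hk2⟩ := h2
  have h3 : ∀ j, bump (cut I i) i k j ≤ I j := by
    intro j
    unfold bump cut
    by_cases h1 : j = i
    · rw [if_pos h1, if_neg (by omega), h1]
      omega
    · rw [if_neg h1]
      split_ifs <;> omega
  rw [← bump_bump] at hk2
  have h4 := dSlopeMono (bump (cut I i) i k) I zero zero W i m n h3 (fun _ => le_rfl) hk2
  have h5 : G (bump I i 1) zero W m n ≤ G (bump I w 1) zero W m n := by
    apply dMono _ _ _ _ _ _ _ (fun _ => le_rfl) (fun _ _ => le_rfl)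
    intro k
    rw [ps_bump, ps_bump]
    split_ifs <;> omega
  omega

theorem dCut : DCut := by
  intro I J W w m n h1 h2
  by_contra hc
  push Not at hc
  have h3 := dMax I J W m n
  have h4 : G (cut I w) zero W m n < G I J W m n ∧ G zero (cut J w) W m n < G I J W m n := by omega
  rcases le_total (G zero J W m n) (G I zero W m n) with h | h
  · have h5 : G I J W m n = G I zero W m n := by omega
    have h6 := cut_core I W w m n (by omega)
    have h7 := dMax (bump I w 1) J W m n
    omega
  · have h5 : G I J W m n = G zero J W m n := by omega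
    have h6 := cut_core J (fun i j => W j i) w n m (by
      rw [← dTransp zero (cut J w) W m n, ← dTransp zero J W m n]
      omega)
    rw [← dTransp zero J W m n, ← dTransp zero (bump J w 1) W m n] at h6
    have h7 := dMax I (bump J w 1) W m n
    omega

end Pool.Agent.W589.LP
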